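import Pool.Agent.Helper57.QZ.Stmts

/-!
# Level sets of `|ζ|`, `|ζ'|` and `Re e^{-iθ} ζ'/ζ` (row TS)
-/

set_option autoImplicit false

namespace Pool.Agent.Helper98.QZ

open MeasureTheory Set Filter Topology Pool.Agent.Helper57.QZ

lemma exp_mul_re (θ : ℝ) (W : ℂ) :
    (Complex.exp (-((θ : ℂ) * Complex.I)) * W).re = Real.cos θ * W.re + Real.sin θ * W.im := by
  have h : Complex.exp (-((θ : ℂ) * Complex.I)) = Complex.exp (((-θ : ℝ) : ℂ) * Complex.I) := by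
    congr 1
    push_cast
    ring
  rw [h, Complex.mul_re, Complex.exp_ofReal_mul_I_re, Complex.exp_ofReal_mul_I_im,
    Real.cos_neg, Real.sin_neg]
  ring

lemma exp_norm (θ : ℝ) : ‖Complex.exp (-((θ : ℂ) * Complex.I))‖ = 1 := by
  have h : Complex.exp (-((θ : ℂ) * Complex.I)) = Complex.exp (((-θ : ℝ) : ℂ) * Complex.I) := by
    congr 1
    push_cast
    ring
  rw [h, Complex.norm_exp_ofReal_mul_I]

lemma p1 {z Z : ℂ} {e : ℝ} (he : e < 1) (h : ‖z / Z - 1‖ ≤ e) :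
    (1 - e) * ‖Z‖ ≤ ‖z‖ ∧ ‖z‖ ≤ (1 + e) * ‖Z‖ := by
  have hZ : Z ≠ 0 := by
    rintro rfl
    simp at h
    linarith
  have h1 : ‖z‖ = ‖z / Z‖ * ‖Z‖ := by
    rw [← norm_mul, div_mul_cancel₀ _ hZ]
  have h2 : ‖z / Z‖ ≤ 1 + e := by
    have : ‖z / Z‖ ≤ ‖z / Z - 1‖ + ‖(1 : ℂ)‖ := by
      have := norm_add_le (z / Z - 1) 1
      simpa using this
    rw [norm_one] at this
    linarith
  have h3 : 1 - e ≤ ‖z / Z‖ := by
    have := norm_sub_norm_le (1 : ℂ) (z / Z)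
    rw [norm_one, norm_sub_rev] at this
    linarith
  rw [h1]
  exact ⟨mul_le_mul_of_nonneg_right h3 (norm_nonneg _),
    mul_le_mul_of_nonneg_right h2 (norm_nonneg _)⟩

lemma p2 {q W : ℂ} {e : ℝ} (h : ‖q - W‖ ≤ e) : ‖W‖ - e ≤ ‖q‖ ∧ ‖q‖ ≤ ‖W‖ + e := by
  have h1 := norm_sub_norm_le q W
  have h2 := norm_sub_norm_le W q
  rw [norm_sub_rev] at h2
  constructor <;> linarith

lemma p3 {q W : ℂ} {e θ : ℝ} (h : ‖q - W‖ ≤ e) :
    (Complex.exp (-((θ : ℂ) * Complex.I)) * W).re - e ≤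
      (Complex.exp (-((θ : ℂ) * Complex.I)) * q).re := by
  have h1 : (Complex.exp (-((θ : ℂ) * Complex.I)) * W).re -
      (Complex.exp (-((θ : ℂ) * Complex.I)) * q).re ≤ ‖q - W‖ := by
    rw [← Complex.sub_re, ← mul_sub]
    refine (Complex.re_le_norm _).trans ?_
    rw [norm_mul, exp_norm, one_mul, norm_sub_rev]
  linarith

lemma p4 {q : ℂ} {θ : ℝ} : (Complex.exp (-((θ : ℂ) * Complex.I)) * q).re ≤ ‖q‖ := by
  refine (Complex.re_le_norm _).trans ?_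
  rw [norm_mul, exp_norm, one_mul]

lemma vol_le {S E L : Set ℝ} {T : ℝ} (h : S ⊆ E ∪ L) (hE : E ⊆ Icc T (2 * T))
    (hL : L ⊆ Icc T (2 * T)) : volume.real S ≤ volume.real E + volume.real L := by
  have hfin : volume (E ∪ L) ≠ ⊤ := by
    refine ne_top_of_le_ne_top ?_ (measure_mono (union_subset hE hL))
    rw [Real.volume_Icc]
    exact ENNReal.ofReal_ne_top
  exact (measureReal_mono h hfin).trans (measureReal_union_le _ _)

section arith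

variable {z w Z W : ℂ} {e A B θ : ℝ}

lemma la (he0 : 0 < e) (he : e ≤ 1 / 16) (hA : 1 ≤ A)
    (h1 : ‖z / Z - 1‖ ≤ e) (hZ : (1 - 2 * e) * A ≤ ‖Z‖) : (1 - 8 * e) * A ≤ ‖z‖ := by
  have h := (p1 (by linarith) h1).1
  nlinarith [mul_le_mul_of_nonneg_left hZ (by linarith : (0:ℝ) ≤ 1 - e),
    mul_nonneg he0.le (by linarith : (0:ℝ) ≤ A), mul_nonneg (mul_nonneg he0.le he0.le) (by linarith : (0:ℝ) ≤ A)]

lemma lb (he0 : 0 < e) (he : e ≤ 1 / 16) (hA : 1 ≤ A) (hB : 1 ≤ B) (hz : z ≠ 0)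
    (h1 : ‖z / Z - 1‖ ≤ e) (h2 : ‖w / z - W‖ ≤ e) (hZ : (1 - 2 * e) * A ≤ ‖Z‖)
    (hW : (1 - 2 * e) * B ≤ ‖W‖) : (1 - 8 * e) * (A * B) ≤ ‖w‖ := by
  have h := (p1 (by linarith) h1).1
  have h' := (p2 h2).1
  have hw : ‖w‖ = ‖w / z‖ * ‖z‖ := by rw [← norm_mul, div_mul_cancel₀ _ hz]
  have hz1 : (1 - 3 * e) * A ≤ ‖z‖ := by
    nlinarith [mul_le_mul_of_nonneg_left hZ (by linarith : (0:ℝ) ≤ 1 - e),
      mul_nonneg he0.le (by linarith : (0:ℝ) ≤ A),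
      mul_nonneg (mul_nonneg he0.le he0.le) (by linarith : (0:ℝ) ≤ A)]
  have hw1 : (1 - 3 * e) * B ≤ ‖w / z‖ := by
    nlinarith [mul_nonneg he0.le (by linarith : (0:ℝ) ≤ B - 1)]
  rw [hw]
  have h3 : ((1 - 3 * e) * B) * ((1 - 3 * e) * A) ≤ ‖w / z‖ * ‖z‖ :=
    mul_le_mul hw1 hz1 (mul_nonneg (by linarith) (by linarith)) (norm_nonneg _)
  have hAB : 0 ≤ A * B := mul_nonneg (by linarith) (by linarith)
  nlinarith [mul_nonneg he0.le hAB, mul_nonneg (mul_nonneg he0.le he0.le) hAB]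

lemma lc (he0 : 0 < e) (he : e ≤ 1 / 16) (hA : 1 ≤ A)
    (h1 : ‖z / Z - 1‖ ≤ e) (hZ : ‖Z‖ < (1 + 2 * e) * A) : ‖z‖ < (1 + 8 * e) * A := by
  have h := (p1 (by linarith) h1).2
  have h3 : (1 + e) * ‖Z‖ < (1 + e) * ((1 + 2 * e) * A) :=
    mul_lt_mul_of_pos_left hZ (by linarith)
  nlinarith [mul_nonneg he0.le (by linarith : (0:ℝ) ≤ A),
    mul_nonneg (mul_nonneg he0.le (by linarith : (0:ℝ) ≤ 1 / 16 - e)) (by linarith : (0:ℝ) ≤ A)]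

lemma ld (he0 : 0 < e) (he : e ≤ 1 / 16) (hA : 1 ≤ A) (hB : 1 ≤ B) (hz : z ≠ 0)
    (h1 : ‖z / Z - 1‖ ≤ e) (h2 : ‖w / z - W‖ ≤ e) (hZ : ‖Z‖ < (1 + 2 * e) * A)
    (hW : ‖W‖ < (1 + 2 * e) * B) : ‖w‖ < (1 + 8 * e) * (A * B) := by
  have h := (p1 (by linarith) h1).2
  have h' := (p2 h2).2
  have hw : ‖w‖ = ‖w / z‖ * ‖z‖ := by rw [← norm_mul, div_mul_cancel₀ _ hz]
  have h3 : (1 + e) * ‖Z‖ < (1 + e) * ((1 + 2 * e) * A) :=
    mul_lt_mul_of_pos_left hZ (by linarith)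
  have hz1 : ‖z‖ ≤ (1 + 4 * e) * A := by
    nlinarith [mul_nonneg he0.le (by linarith : (0:ℝ) ≤ A),
      mul_nonneg (mul_nonneg he0.le (by linarith : (0:ℝ) ≤ 1 / 16 - e)) (by linarith : (0:ℝ) ≤ A)]
  have hw1 : ‖w / z‖ < (1 + 3 * e) * B := by
    nlinarith [mul_nonneg he0.le (by linarith : (0:ℝ) ≤ B - 1)]
  rw [hw]
  have hzp : 0 < ‖z‖ := norm_pos_iff.2 hz
  have h4 : ‖w / z‖ * ‖z‖ < ((1 + 3 * e) * B) * ‖z‖ := mul_lt_mul_of_pos_right hw1 hzp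
  have h5 : ((1 + 3 * e) * B) * ‖z‖ ≤ ((1 + 3 * e) * B) * ((1 + 4 * e) * A) :=
    mul_le_mul_of_nonneg_left hz1 (mul_nonneg (by linarith) (by linarith))
  have hAB : 0 ≤ A * B := mul_nonneg (by linarith) (by linarith)
  nlinarith [mul_nonneg he0.le hAB,
    mul_nonneg (mul_nonneg he0.le (by linarith : (0:ℝ) ≤ 1 / 16 - e)) hAB]

lemma le' (he0 : 0 < e) (hB : 1 ≤ B) (h2 : ‖w / z - W‖ ≤ e)
    (hW : ‖W‖ < (1 + 2 * e) * B) :
    (Complex.exp (-((θ : ℂ) * Complex.I)) * (w / z)).re < (1 + 8 * e) * B := by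
  have h' := (p2 h2).2
  have h3 := p4 (q := w / z) (θ := θ)
  nlinarith [mul_nonneg he0.le (by linarith : (0:ℝ) ≤ B - 1)]

lemma lf (he0 : 0 < e) (hB : 1 ≤ B) (h2 : ‖w / z - W‖ ≤ e)
    (hW : (1 - 2 * e) * B ≤ (Complex.exp (-((θ : ℂ) * Complex.I)) * W).re) :
    (1 - 8 * e) * B ≤ (Complex.exp (-((θ : ℂ) * Complex.I)) * (w / z)).re := by
  have h' := p3 (θ := θ) h2
  nlinarith [mul_nonneg he0.le (by linarith : (0:ℝ) ≤ B - 1)]

end arith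

/-- the compact parameter space -/
abbrev XX : Type := (Icc (1 / 2 : ℝ) 1) × (Icc (0 : ℝ) 1) × (Icc (0 : ℝ) 1) ×
  (Icc (-1 : ℝ) 1) × (Icc (-1 : ℝ) 1)

noncomputable def G2 (y : ℕ) (k : XX) (φ : Pr y → ℝ) : ℝ := ‖Zy y k.1 φ‖ * (k.2.1 : ℝ)
noncomputable def G3 (y : ℕ) (k : XX) (φ : Pr y → ℝ) : ℝ := ‖Wy y k.1 φ‖ * (k.2.2.1 : ℝ)
noncomputable def G1 (y : ℕ) (k : XX) (φ : Pr y → ℝ) : ℝ := min (G2 y k φ) (G3 y k φ)
noncomputable def G4 (y : ℕ) (k : XX) (φ : Pr y → ℝ) : ℝ :=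
  ((k.2.2.2.1 : ℝ) * (Wy y k.1 φ).re + (k.2.2.2.2 : ℝ) * (Wy y k.1 φ).im) * (k.2.2.1 : ℝ)

lemma cZ (h : ST_CN) (y : ℕ) :
    Continuous (fun q : XX × (Pr y → ℝ) => Zy y q.1.1 q.2) :=
  (h y).1.comp (f := fun q : XX × (Pr y → ℝ) => (q.1.1, q.2)) (by fun_prop)

lemma cW (h : ST_CN) (y : ℕ) :
    Continuous (fun q : XX × (Pr y → ℝ) => Wy y q.1.1 q.2) :=
  (h y).2.1.comp (f := fun q : XX × (Pr y → ℝ) => (q.1.1, q.2)) (by fun_prop)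

lemma c2 (h : ST_CN) (y : ℕ) : Continuous (fun q : XX × (Pr y → ℝ) => G2 y q.1 q.2) := by
  unfold G2
  exact (cZ h y).norm.mul (by fun_prop)

lemma c3 (h : ST_CN) (y : ℕ) : Continuous (fun q : XX × (Pr y → ℝ) => G3 y q.1 q.2) := by
  unfold G3
  exact (cW h y).norm.mul (by fun_prop)

lemma c1 (h : ST_CN) (y : ℕ) : Continuous (fun q : XX × (Pr y → ℝ) => G1 y q.1 q.2) := by
  unfold G1
  exact (c2 h y).min (c3 h y)

lemma c4 (h : ST_CN) (y : ℕ) : Continuous (fun q : XX × (Pr y → ℝ) => G4 y q.1 q.2) := by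
  unfold G4
  refine ((Continuous.mul (by fun_prop) (Complex.continuous_re.comp (cW h y))).add
    (Continuous.mul (by fun_prop) (Complex.continuous_im.comp (cW h y)))).mul (by fun_prop)

lemma q2 (h : ST_CN) (y : ℕ) (k : XX) (φ : Pr y → ℝ) (p : Pr y) :
    G2 y k (Function.update φ p (φ p + 2 * Real.pi)) = G2 y k φ := by
  unfold G2; rw [((h y).2.2 k.1 φ p).1]

lemma q3 (h : ST_CN) (y : ℕ) (k : XX) (φ : Pr y → ℝ) (p : Pr y) :
    G3 y k (Function.update φ p (φ p + 2 * Real.pi)) = G3 y k φ := by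
  unfold G3; rw [((h y).2.2 k.1 φ p).2]

lemma q1 (h : ST_CN) (y : ℕ) (k : XX) (φ : Pr y → ℝ) (p : Pr y) :
    G1 y k (Function.update φ p (φ p + 2 * Real.pi)) = G1 y k φ := by
  unfold G1; rw [q2 h, q3 h]

lemma q4 (h : ST_CN) (y : ℕ) (k : XX) (φ : Pr y → ℝ) (p : Pr y) :
    G4 y k (Function.update φ p (φ p + 2 * Real.pi)) = G4 y k φ := by
  unfold G4; rw [((h y).2.2 k.1 φ p).2]

/-- from a large level set of `G` to a large level set of `f` -/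
lemma lower {T N τ a P : ℝ} (hT : 0 < T) (hN : 1 ≤ N) (hτ : τ ≤ 1 / (16 * N))
    {g f : ℝ → ℝ} {b : ℝ} {E : Set ℝ} (hE : E ⊆ Icc T (2 * T))
    (hEv : volume.real E ≤ T / (8 * N))
    (hP : 2 / N ≤ P)
    (hg : T * (P - τ) ≤ volume.real {t : ℝ | t ∈ Icc T (2 * T) ∧ a ≤ g t})
    (hgf : ∀ t ∈ Icc T (2 * T), t ∉ E → a ≤ g t → b ≤ f t) :
    T / N ≤ volume.real {t : ℝ | t ∈ Icc T (2 * T) ∧ b ≤ f t} := by
  have h1 := vol_le (S := {t : ℝ | t ∈ Icc T (2 * T) ∧ a ≤ g t}) (E := E)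
    (L := {t : ℝ | t ∈ Icc T (2 * T) ∧ b ≤ f t}) (T := T) (by
      rintro t ⟨ht, h⟩
      by_cases hE : t ∈ E
      · exact Or.inl hE
      · exact Or.inr ⟨ht, hgf t ht hE h⟩) hE (fun t ht => ht.1)
  have hN0 : 0 < N := by linarith
  have h2 : T * (2 / N - 1 / (16 * N)) ≤ T * (P - τ) :=
    mul_le_mul_of_nonneg_left (by linarith) hT.le
  have h3 : T * (2 / N - 1 / (16 * N)) - T / (8 * N) = (29 / 16) * (T / N) := by
    field_simp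
    ring
  have h4 : 0 < T / N := div_pos hT hN0
  linarith

/-- the upper bound for level sets -/
lemma upper {T N τ P : ℝ} (hT : 0 < T) (hN : 1 ≤ N) (hτ : τ ≤ 1 / (16 * N))
    (hP : P ≤ 1 / (8 * N)) : T * (P + τ) ≤ (3 / 16) * (T / N) := by
  have hN0 : 0 < N := by linarith
  have h2 : T * (P + τ) ≤ T * (1 / (8 * N) + 1 / (16 * N)) :=
    mul_le_mul_of_nonneg_left (by linarith) hT.le
  have h3 : T * (1 / (8 * N) + 1 / (16 * N)) = (3 / 16) * (T / N) := by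
    field_simp
    ring
  linarith

theorem ts_of (h1 : ST_RM) (h2 : ST_KW2) (h3 : ST_EX) (h4 : ST_CN) : ST_TS := by
  intro ε hε η hη
  obtain ⟨hη0, hη1⟩ := hη
  set e : ℝ := η / 8 with he
  have he0 : 0 < e := by rw [he]; positivity
  have he1 : e ≤ 1 / 16 := by rw [he]; linarith
  have hηe : η = 8 * e := by rw [he]; ring
  obtain ⟨N₀, hN₀, hRM⟩ := h1 ε hε e ⟨he0, by linarith⟩
  refine ⟨N₀, hN₀, fun N hN => ?_⟩
  have hN1 : 1 ≤ N := hN₀.trans hN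
  have hNp : 0 < N := by linarith
  obtain ⟨Y₀, hY⟩ := hRM N hN
  obtain ⟨y₁, hEX⟩ := h3 ε hε e ⟨he0, by linarith⟩ (1 / (8 * N)) (by positivity)
  obtain ⟨y, hyY, hy1⟩ : ∃ y : ℕ, Y₀ ≤ y ∧ y₁ ≤ y := ⟨max Y₀ y₁, le_max_left _ _, le_max_right _ _⟩
  have hRMy := hY y hyY
  obtain ⟨T₁, hT₁, hEXy⟩ := hEX y hy1
  -- slack
  set τ : ℝ := min e (1 / (16 * N)) with hτ
  have hτ0 : 0 < τ := lt_min he0 (by positivity)
  have hτe : τ ≤ e := min_le_left _ _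
  have hτN : τ ≤ 1 / (16 * N) := min_le_right _ _
  obtain ⟨Ta, hTa, hKa⟩ := h2 y XX (G1 y) (c1 h4 y) (q1 h4 y) (1 - e) τ hτ0
  obtain ⟨Tb, hTb, hKb⟩ := h2 y XX (G2 y) (c2 h4 y) (q2 h4 y) (1 + e) τ hτ0
  obtain ⟨Tc, hTc, hKc⟩ := h2 y XX (G3 y) (c3 h4 y) (q3 h4 y) (1 + e) τ hτ0
  obtain ⟨Td, hTd, hKd⟩ := h2 y XX (G4 y) (c4 h4 y) (q4 h4 y) (1 - e) τ hτ0
  refine ⟨max (max T₁ Ta) (max (max Tb Tc) Td), ?_, ?_⟩
  · exact hT₁.trans ((le_max_left _ _).trans (le_max_left _ _))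
  intro T hT σ hσ
  have hTT₁ : T₁ ≤ T := ((le_max_left _ _).trans (le_max_left _ _)).trans hT
  have hTTa : Ta ≤ T := ((le_max_right _ _).trans (le_max_left _ _)).trans hT
  have hTTb : Tb ≤ T :=
    (((le_max_left _ _).trans (le_max_left _ _)).trans (le_max_right _ _)).trans hT
  have hTTc : Tc ≤ T :=
    (((le_max_right _ _).trans (le_max_left _ _)).trans (le_max_right _ _)).trans hT
  have hTTd : Td ≤ T := ((le_max_right _ _).trans (le_max_right _ _)).trans hT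
  have hT0 : 0 < T := hTa.trans_le hTTa
  obtain ⟨A, B, hA, hB, hR1, hR2, hR3, hR4⟩ := hRMy σ hσ
  have hB1 : 1 ≤ B := by
    refine le_trans ?_ hB
    rw [le_div_iff₀ he0]
    linarith
  have hA0 : 0 < A := by linarith
  have hB0 : 0 < B := by linarith
  obtain ⟨E, hE, hEv, hEp⟩ := hEXy T hTT₁
  have hEv' : volume.real E ≤ T / (8 * N) := hEv.trans (le_of_eq (by ring))
  have hσ' : σ ∈ Icc (1 / 2 : ℝ) 1 := ⟨by linarith [hσ.1, hε.1], hσ.2⟩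
  have hAi : A⁻¹ ∈ Icc (0 : ℝ) 1 := ⟨inv_nonneg.2 hA0.le, inv_le_one_of_one_le₀ hA⟩
  have hBi : B⁻¹ ∈ Icc (0 : ℝ) 1 := ⟨inv_nonneg.2 hB0.le, inv_le_one_of_one_le₀ hB1⟩
  -- the parameter for the angle `θ`
  let k : ℝ → XX := fun θ => (⟨σ, hσ'⟩, ⟨A⁻¹, hAi⟩, ⟨B⁻¹, hBi⟩,
    ⟨Real.cos θ, ⟨Real.neg_one_le_cos θ, Real.cos_le_one θ⟩⟩,
    ⟨Real.sin θ, ⟨Real.neg_one_le_sin θ, Real.sin_le_one θ⟩⟩)
  have g2 : ∀ (θ : ℝ) (φ : Pr y → ℝ), G2 y (k θ) φ = ‖Zy y σ φ‖ * A⁻¹ := fun _ _ => rfl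
  have g3 : ∀ (θ : ℝ) (φ : Pr y → ℝ), G3 y (k θ) φ = ‖Wy y σ φ‖ * B⁻¹ := fun _ _ => rfl
  have g4 : ∀ (θ : ℝ) (φ : Pr y → ℝ), G4 y (k θ) φ =
      (Complex.exp (-((θ : ℂ) * Complex.I)) * Wy y σ φ).re * B⁻¹ := fun θ φ => by
    rw [exp_mul_re]; rfl
  -- the lower sets
  have hPa : (tor y).real {φ | (1 - e) * A ≤ ‖Zy y σ φ‖ ∧ (1 - e) * B ≤ ‖Wy y σ φ‖} =
      (tor y).real {φ | 1 - e ≤ G1 y (k 0) φ} := by
    congr 1
    ext φ
    simp only [mem_ofPred_eq, G1, le_min_iff, g2, g3, le_mul_inv_iff₀ hA0, le_mul_inv_iff₀ hB0]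
  have hPd : ∀ θ : ℝ, (tor y).real
      {φ | (1 - e) * B ≤ (Complex.exp (-((θ : ℂ) * Complex.I)) * Wy y σ φ).re} =
      (tor y).real {φ | 1 - e ≤ G4 y (k θ) φ} := by
    intro θ
    congr 1
    ext φ
    simp only [mem_ofPred_eq, g4, le_mul_inv_iff₀ hB0]
  have hPb : (tor y).real {φ | (1 + e) * A ≤ ‖Zy y σ φ‖} =
      (tor y).real {φ | 1 + e ≤ G2 y (k 0) φ} := by
    congr 1
    ext φ
    simp only [mem_ofPred_eq, g2, le_mul_inv_iff₀ hA0]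
  have hPc : (tor y).real {φ | (1 + e) * B ≤ ‖Wy y σ φ‖} =
      (tor y).real {φ | 1 + e ≤ G3 y (k 0) φ} := by
    congr 1
    ext φ
    simp only [mem_ofPred_eq, g3, le_mul_inv_iff₀ hB0]
  rw [hPa] at hR1
  rw [hPb] at hR2
  rw [hPc] at hR3
  have hKa' := (hKa T hTTa (k 0)).1
  have hKb' := ((hKb T hTTb (k 0)).2).trans (upper hT0 hN1 hτN hR2)
  have hKc' := ((hKc T hTTc (k 0)).2).trans (upper hT0 hN1 hτN hR3)
  -- pointwise facts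
  have fa : ∀ t : ℝ, 1 - e - τ ≤ G1 y (k 0) (lin y t) →
      (1 - 2 * e) * A ≤ ‖Zy y σ (lin y t)‖ ∧ (1 - 2 * e) * B ≤ ‖Wy y σ (lin y t)‖ := by
    intro t ht
    have h5 : 1 - 2 * e ≤ G1 y (k 0) (lin y t) := by linarith
    simp only [G1, le_min_iff, g2, g3, le_mul_inv_iff₀ hA0, le_mul_inv_iff₀ hB0] at h5
    exact h5
  have hTN : 0 < T / N := div_pos hT0 hNp
  have h8 : T / (8 * N) = (1 / 8) * (T / N) := by field_simp
  have Eb : {t : ℝ | t ∈ Icc T (2 * T) ∧ (1 + 2 * e) * A ≤ ‖Zy y σ (lin y t)‖} ⊆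
      {t : ℝ | t ∈ Icc T (2 * T) ∧ 1 + e + τ ≤ G2 y (k 0) (lin y t)} := by
    rintro t ⟨ht, h⟩
    refine ⟨ht, ?_⟩
    rw [g2]
    refine le_trans ?_ ((le_mul_inv_iff₀ hA0).2 h)
    linarith
  have Ec : {t : ℝ | t ∈ Icc T (2 * T) ∧ (1 + 2 * e) * B ≤ ‖Wy y σ (lin y t)‖} ⊆
      {t : ℝ | t ∈ Icc T (2 * T) ∧ 1 + e + τ ≤ G3 y (k 0) (lin y t)} := by
    rintro t ⟨ht, h⟩
    refine ⟨ht, ?_⟩
    rw [g3]
    refine le_trans ?_ ((le_mul_inv_iff₀ hB0).2 h)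
    linarith
  refine ⟨A, B, hA, hB1, ?_, ?_, ?_, ?_, ?_⟩
  · exact lower hT0 hN1 hτN hE hEv' hR1 hKa' (fun t ht hEt hg => by
      rw [hηe]
      exact la he0 he1 hA (hEp t ht hEt σ hσ).2.1 (fa t hg).1)
  · have h5 := vol_le (S := {t : ℝ | t ∈ Icc T (2 * T) ∧ (1 + η) * A ≤ ‖riemannZeta (pt σ t)‖})
      (E := E) (L := {t : ℝ | t ∈ Icc T (2 * T) ∧ 1 + e + τ ≤ G2 y (k 0) (lin y t)}) (T := T) (by
        rintro t ⟨ht, h⟩
        by_cases hEt : t ∈ E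
        · exact Or.inl hEt
        · refine Or.inr (Eb ⟨ht, ?_⟩)
          by_contra hc
          have := lc he0 he1 hA (hEp t ht hEt σ hσ).2.1 (not_le.1 hc)
          rw [hηe] at h
          linarith) hE (fun t ht => ht.1)
    linarith
  · exact lower hT0 hN1 hτN hE hEv' hR1 hKa' (fun t ht hEt hg => by
      rw [hηe]
      exact lb he0 he1 hA hB1 (hEp t ht hEt σ hσ).1 (hEp t ht hEt σ hσ).2.1
        (hEp t ht hEt σ hσ).2.2 (fa t hg).1 (fa t hg).2)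
  · have h5 := vol_le (S := {t : ℝ | t ∈ Icc T (2 * T) ∧
        (1 + η) * (A * B) ≤ ‖deriv riemannZeta (pt σ t)‖})
      (E := E) (L := {t : ℝ | t ∈ Icc T (2 * T) ∧ 1 + e + τ ≤ G2 y (k 0) (lin y t)} ∪
        {t : ℝ | t ∈ Icc T (2 * T) ∧ 1 + e + τ ≤ G3 y (k 0) (lin y t)}) (T := T) (by
        rintro t ⟨ht, h⟩
        by_cases hEt : t ∈ E
        · exact Or.inl hEt
        · refine Or.inr ?_
          by_cases hc : (1 + 2 * e) * A ≤ ‖Zy y σ (lin y t)‖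
          · exact Or.inl (Eb ⟨ht, hc⟩)
          · refine Or.inr (Ec ⟨ht, ?_⟩)
            by_contra hd
            have := ld he0 he1 hA hB1 (hEp t ht hEt σ hσ).1 (hEp t ht hEt σ hσ).2.1
              (hEp t ht hEt σ hσ).2.2 (not_le.1 hc) (not_le.1 hd)
            rw [hηe] at h
            linarith) hE (union_subset (fun t ht => ht.1) (fun t ht => ht.1))
    have h6 := measureReal_union_le (μ := (volume : Measure ℝ))
      {t : ℝ | t ∈ Icc T (2 * T) ∧ 1 + e + τ ≤ G2 y (k 0) (lin y t)}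
      {t : ℝ | t ∈ Icc T (2 * T) ∧ 1 + e + τ ≤ G3 y (k 0) (lin y t)}
    linarith
  · intro θ
    constructor
    · have hR4' := hR4 θ
      rw [hPd θ] at hR4'
      refine lower hT0 hN1 hτN hE hEv' hR4' (hKd T hTTd (k θ)).1
        (fun t ht hEt hg => ?_)
      rw [hηe]
      refine lf he0 hB1 (hEp t ht hEt σ hσ).2.2 ?_
      have h5 : 1 - 2 * e ≤ G4 y (k θ) (lin y t) := by linarith
      rw [g4, le_mul_inv_iff₀ hB0] at h5
      exact h5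
    · have h5 := vol_le (S := {t : ℝ | t ∈ Icc T (2 * T) ∧ (1 + η) * B ≤
          (Complex.exp (-((θ : ℂ) * Complex.I)) *
            (deriv riemannZeta (pt σ t) / riemannZeta (pt σ t))).re})
        (E := E) (L := {t : ℝ | t ∈ Icc T (2 * T) ∧ 1 + e + τ ≤ G3 y (k 0) (lin y t)})
        (T := T) (by
          rintro t ⟨ht, h⟩
          by_cases hEt : t ∈ E
          · exact Or.inl hEt
          · refine Or.inr (Ec ⟨ht, ?_⟩)
            by_contra hd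
            have := le' (θ := θ) he0 hB1 (hEp t ht hEt σ hσ).2.2 (not_le.1 hd)
            rw [hηe] at h
            linarith) hE (fun t ht => ht.1)
      linarith

end Pool.Agent.Helper98.QZ
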